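import Pool.Agent.MP_6b3e96_gt.H77.Spec

/-! A flat connection on a star-shaped plane domain has a smooth parallel frame. -/

open scoped ContDiff Topology NNReal
open Set Filter Metric Complex

noncomputable section

namespace Pool.Agent.MP_6b3e96_gt.H83

variable {A : Type*} [NormedRing A] [NormedAlgebra ℝ A] [CompleteSpace A] [NormOneClass A]

omit [CompleteSpace A] [NormOneClass A] in
lemma right_of_Icc {Y : ℝ → A} {d : A} {t : ℝ} (ht : t ∈ Ico (0 : ℝ) 1)
    (h : HasDerivWithinAt Y d (Icc 0 1) t) : HasDerivWithinAt Y d (Ici t) t :=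
  h.mono_of_mem_nhdsWithin (Icc_mem_nhdsGE_of_mem ht)

/-- Linear equations have solutions on the unit interval. -/
lemma lin_ode {a : ℝ → A} {M : ℝ} (ha : ContinuousOn a (Icc 0 1)) (hM : ∀ t ∈ Icc 0 1, ‖a t‖ ≤ M) :
    ∃ Y : ℝ → A, Y 0 = 1 ∧ ∀ t ∈ Icc (0 : ℝ) 1, HasDerivWithinAt Y (Y t * a t) (Icc 0 1) t := by
  have hM0 : 0 ≤ M := (norm_nonneg _).trans (hM 0 (by simp))
  set R := Real.exp M with hR
  have hR0 : 0 < R := Real.exp_pos M
  set χ : A → ℝ := fun x => max 0 (min 1 (R + 1 - ‖x‖)) with hχ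
  have hχ0 : ∀ x, 0 ≤ χ x := fun x => le_max_left _ _
  have hχ1 : ∀ x, χ x ≤ 1 := fun x => max_le zero_le_one (min_le_left _ _)
  have hχl : ∀ x y, |χ x - χ y| ≤ ‖x - y‖ := fun x y => by
    refine (abs_max_sub_max_le_max _ _ _ _).trans (max_le (by simp) ?_)
    refine (abs_min_sub_min_le_max _ _ _ _).trans (max_le (by simp) ?_)
    rw [show R + 1 - ‖x‖ - (R + 1 - ‖y‖) = ‖y‖ - ‖x‖ by ring, norm_sub_rev]
    exact abs_norm_sub_norm_le _ _
  have hχb : ∀ x, χ x * ‖x‖ ≤ R + 1 := fun x => by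
    rcases le_total ‖x‖ (R + 1) with h | h
    · nlinarith [hχ0 x, hχ1 x, norm_nonneg x]
    · have : χ x = 0 := max_eq_left ((min_le_right _ _).trans (by linarith))
      rw [this]; linarith
  set L : ℝ≥0 := ⟨(R + 1) * M, by positivity⟩ with hL
  have hpl : IsPicardLindelof (fun t x => χ x • x * a t) (⟨0, by simp⟩ : Icc (0 : ℝ) 1) (1 : A)
      L 0 L ⟨((R + 1) * M + 2) * M, by positivity⟩ := by
    refine ⟨fun t ht => LipschitzOnWith.of_dist_le_mul fun x hx y _ => ?_,
      fun x _ => continuousOn_const.mul ha, fun t ht x _ => ?_, by simp⟩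
    · have hx' : ‖x‖ ≤ (R + 1) * M + 1 := by
        have h1 : ‖x - 1‖ ≤ (R + 1) * M := mem_closedBall_iff_norm.1 hx
        linarith [norm_le_norm_sub_add x 1, norm_one (α := A)]
      rw [dist_eq_norm, dist_eq_norm, ← sub_mul]
      have e : χ x • x - χ y • y = (χ x - χ y) • x + χ y • (x - y) := by module
      have h1 : ‖χ x • x - χ y • y‖ ≤ ((R + 1) * M + 2) * ‖x - y‖ := by
        rw [e]
        refine (norm_add_le _ _).trans ?_
        rw [norm_smul, norm_smul, Real.norm_eq_abs, Real.norm_eq_abs, abs_of_nonneg (hχ0 y)]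
        have h2 := mul_le_mul (hχl x y) hx' (norm_nonneg _) (norm_nonneg _)
        nlinarith [hχ1 y, norm_nonneg (x - y)]
      refine (norm_mul_le _ _).trans ((mul_le_mul h1 (hM t ht) (norm_nonneg _)
        (by positivity)).trans_eq ?_)
      show _ = ((R + 1) * M + 2) * M * ‖x - y‖
      ring
    · refine (norm_mul_le _ _).trans ?_
      rw [norm_smul, Real.norm_eq_abs, abs_of_nonneg (hχ0 x)]
      exact mul_le_mul (hχb x) (hM t ht) (norm_nonneg _) (by positivity)
  obtain ⟨Y, hY0, hY⟩ := hpl.exists_eq_forall_mem_Icc_hasDerivWithinAt₀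
  have hb := norm_le_gronwallBound_of_norm_deriv_right_le (f := Y) (δ := 1) (K := M) (ε := 0)
    (fun t ht => (hY t ht).continuousWithinAt)
    (fun t ht => right_of_Icc ht (hY t (Ico_subset_Icc_self ht))) (by simp [show Y 0 = 1 from hY0])
    (fun t ht => by
      refine (norm_mul_le _ _).trans ?_
      rw [norm_smul, Real.norm_eq_abs, abs_of_nonneg (hχ0 _), add_zero, mul_comm M]
      exact mul_le_mul (mul_le_of_le_one_left (norm_nonneg _) (hχ1 _))
        (hM t (Ico_subset_Icc_self ht)) (norm_nonneg _) (norm_nonneg _))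
  refine ⟨Y, hY0, fun t ht => ?_⟩
  have h1 : ‖Y t‖ ≤ R := by
    refine (hb t ht).trans ?_
    rw [gronwallBound_ε0, one_mul]
    exact Real.exp_le_exp.2 (by nlinarith [ht.1, ht.2])
  have h2 : χ (Y t) = 1 := by
    simp only [hχ]; rw [min_eq_left (by linarith), max_eq_right zero_le_one]
  simpa only [h2, one_smul] using hY t ht

omit [CompleteSpace A] [NormOneClass A] in
lemma gron {W W' : ℝ → A} {δ K ε : ℝ} (hK : 1 ≤ K) (hδ : 0 ≤ δ) (hε : 0 ≤ ε) (h0 : ‖W 0‖ ≤ δ)
    (h : ∀ t ∈ Icc (0 : ℝ) 1, HasDerivWithinAt W (W' t) (Icc 0 1) t ∧ ‖W' t‖ ≤ K * ‖W t‖ + ε) :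
    ∀ t ∈ Icc (0 : ℝ) 1, ‖W t‖ ≤ (δ + ε) * Real.exp K := by
  intro t ht
  refine (norm_le_gronwallBound_of_norm_deriv_right_le (fun t ht => (h t ht).1.continuousWithinAt)
    (fun t ht => (h t (Ico_subset_Icc_self ht)).1.mono_of_mem_nhdsWithin (Icc_mem_nhdsGE_of_mem ht))
    h0 (fun t ht => (h t (Ico_subset_Icc_self ht)).2) t ht).trans ?_
  rw [gronwallBound_of_K_ne_0 (by linarith)]
  have h1 : Real.exp (K * (t - 0)) ≤ Real.exp K := Real.exp_le_exp.2 (by nlinarith [ht.1, ht.2])
  have h2 : ε / K ≤ ε := div_le_self hε hK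
  have h3 : 1 ≤ Real.exp (K * (t - 0)) := Real.one_le_exp (by nlinarith [ht.1])
  have h4 : ε / K * (Real.exp (K * (t - 0)) - 1) ≤ ε * Real.exp K :=
    mul_le_mul h2 (by linarith) (by linarith) hε
  have h5 := mul_le_mul_of_nonneg_left h1 hδ
  show δ * Real.exp (K * (t - 0)) + ε / K * (Real.exp (K * (t - 0)) - 1) ≤ _
  linarith

omit [CompleteSpace A] [NormOneClass A] in
lemma curv {B : ℂ →L[ℝ] ℂ →L[ℝ] A} {a : ℂ →L[ℝ] A}
    (h : B 1 I - B I 1 + a 1 * a I - a I * a 1 = 0) (v w : ℂ) :
    B v w - B w v + a v * a w - a w * a v = 0 := by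
  have hv : v = v.re • (1 : ℂ) + v.im • I := by simp
  have hw : w = w.re • (1 : ℂ) + w.im • I := by simp
  have e : B v w - B w v + a v * a w - a w * a v =
      (v.re * w.im - v.im * w.re) • (B 1 I - B I 1 + a 1 * a I - a I * a 1) := by
    conv_lhs => rw [hv, hw]
    simp only [map_add, map_smul, add_apply, smul_apply,
      add_mul, mul_add, smul_mul_assoc, mul_smul_comm]
    module
  rw [e, h, smul_zero]

theorem flat_aux {D : Set ℂ} {α : ℂ → ℂ →L[ℝ] A} (hD : IsOpen D) (h0 : 0 ∈ D)
    (hs : StarConvex ℝ 0 D) (hα : ContDiffOn ℝ ∞ α D)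
    (hf : ∀ z ∈ D, fderiv ℝ α z 1 I - fderiv ℝ α z I 1 + α z 1 * α z I - α z I * α z 1 = 0) :
    ∃ F : ℂ → A, ContDiffOn ℝ ∞ F D ∧ F 0 = 1 ∧ ∀ z ∈ D, ∀ v, fderiv ℝ F z v = F z * α z v := by
  have hseg : ∀ z ∈ D, ∀ t ∈ Icc (0 : ℝ) 1, t • z ∈ D := fun z hz t ht => hs.smul_mem hz ht.1 ht.2
  have hex : ∀ z, ∃ Y : ℝ → A, z ∈ D → Y 0 = 1 ∧
      ∀ t ∈ Icc (0 : ℝ) 1, HasDerivWithinAt Y (Y t * α (t • z) z) (Icc 0 1) t := by
    intro z
    by_cases hz : z ∈ D
    · have hc : ContinuousOn (fun t : ℝ => α (t • z) z) (Icc 0 1) :=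
        (hα.continuousOn.comp (by fun_prop) (hseg z hz)).clm_apply continuousOn_const
      obtain ⟨M, hM⟩ := isCompact_Icc.exists_bound_of_continuousOn hc
      obtain ⟨Y, hY⟩ := lin_ode hc hM
      exact ⟨Y, fun _ => hY⟩
    · exact ⟨0, fun h => absurd h hz⟩
  choose Y hY using hex
  have hd : ∀ z ∈ D, HasFDerivAt α (fderiv ℝ α z) z := fun z hz =>
    ((hα.contDiffAt (hD.mem_nhds hz)).differentiableAt (by simp)).hasFDerivAt
  have hc' : ContinuousOn (fderiv ℝ α) D := hα.continuousOn_fderiv_of_isOpen hD (by simp)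
  have key : ∀ z ∈ D, HasFDerivAt (fun z => Y z 1)
      ((ContinuousLinearMap.mul ℝ A (Y z 1)).comp (α z)) z := by
    intro z hz
    have hK : IsCompact ((fun t : ℝ => t • z) '' Icc 0 1) := isCompact_Icc.image (by fun_prop)
    obtain ⟨δ, hδ, hδD⟩ := hK.exists_cthickening_subset_open hD (by
      rintro _ ⟨t, ht, rfl⟩; exact hseg z hz t ht)
    have hK' := hK.cthickening (r := δ)
    obtain ⟨M1, hM1⟩ := hK'.exists_bound_of_continuousOn (hα.continuousOn.mono hδD)
    obtain ⟨M2, hM2⟩ := hK'.exists_bound_of_continuousOn (f := fderiv ℝ α) (hc'.mono hδD)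
    have huc := (Metric.uniformContinuousOn_iff_le (f := fderiv ℝ α)).1
      (hK'.uniformContinuousOn_of_continuous (f := fderiv ℝ α) (hc'.mono hδD))
    set M := max 1 (max M1 M2) with hM
    have hM0 : 1 ≤ M := le_max_left _ _
    have hM1' : M1 ≤ M := (le_max_left _ _).trans (le_max_right _ _)
    have hM2' : M2 ≤ M := (le_max_right _ _).trans (le_max_right _ _)
    set Z := ‖z‖ + 1 with hZ
    have hZ1 : 1 ≤ Z := by linarith [norm_nonneg z]
    have hball : ∀ t ∈ Icc (0 : ℝ) 1, closedBall (t • z) δ ⊆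
        cthickening δ ((fun t : ℝ => t • z) '' Icc 0 1) := fun t ht =>
      closedBall_subset_cthickening (mem_image_of_mem (fun t : ℝ => t • z) ht) δ
    have hMZ : 1 ≤ M * Z := one_le_mul_of_one_le_of_one_le hM0 hZ1
    have hYb : ∀ t ∈ Icc (0 : ℝ) 1, ‖Y z t‖ ≤ (1 + 0) * Real.exp (M * Z) := by
      refine gron hMZ zero_le_one le_rfl (by simp [(hY z hz).1]) fun t ht => ⟨(hY z hz).2 t ht, ?_⟩
      refine (norm_mul_le _ _).trans ?_
      rw [add_zero, mul_comm]
      refine mul_le_mul_of_nonneg_right (((α (t • z)).le_opNorm z).trans ?_) (norm_nonneg _)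
      have := hM1 _ (hball t ht (mem_closedBall_self hδ.le))
      exact mul_le_mul (by linarith) (by linarith) (norm_nonneg _) (by linarith)
    set E := Real.exp (M * Z) with hE
    have hE0 : 0 < E := Real.exp_pos _
    rw [hasFDerivAt_iff_isLittleO_nhds_zero, Asymptotics.isLittleO_iff]
    intro c hc
    set η := min 1 (c / (E * E * (M + Z + 3 * M * M * Z))) with hη
    have hη0 : 0 < η := lt_min one_pos (by positivity)
    have hη1 : η ≤ 1 := min_le_left _ _
    obtain ⟨δ', hδ', hu⟩ := huc η hη0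
    filter_upwards [closedBall_mem_nhds (0 : ℂ) (show 0 < min (min δ δ') η by positivity)] with h hh
    rw [mem_closedBall_zero_iff, le_min_iff, le_min_iff] at hh
    obtain ⟨⟨hh1, hh2⟩, hh3⟩ := hh
    have hzh : z + h ∈ D := hδD (hball 1 (by simp) (by simpa [dist_eq_norm] using hh1))
    have hmain := gron (δ := 0) (ε := E * (η * (M + Z + 3 * M * M * Z) * ‖h‖))
      (W := fun t => Y (z + h) t - Y z t * (1 + t • α (t • z) h))
      (W' := fun t => Y (z + h) t * α (t • (z + h)) (z + h) - (Y z t * α (t • z) z *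
        (1 + t • α (t • z) h) + Y z t * (t • fderiv ℝ α (t • z) z h + α (t • z) h)))
      hMZ le_rfl (by positivity) (by simp [(hY z hz).1, (hY _ hzh).1]) ?_ 1 (by simp)
    · simp only [one_smul, zero_add] at hmain
      have e : Y (z + h) 1 - Y z 1 - ((ContinuousLinearMap.mul ℝ A (Y z 1)).comp (α z)) h =
          Y (z + h) 1 - Y z 1 * (1 + α z h) := by simp [mul_add, sub_sub]
      rw [e]
      refine hmain.trans ?_
      have h1 : η * (E * E * (M + Z + 3 * M * M * Z)) ≤ c :=
        (le_div_iff₀ (by positivity)).1 (min_le_right _ _)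
      calc _ = η * (E * E * (M + Z + 3 * M * M * Z)) * ‖h‖ := by rw [← hE]; ring
        _ ≤ _ := by gcongr
    intro t ht
    have htz := hseg z hz t ht
    have hth : ‖t • h‖ ≤ ‖h‖ := by
      rw [norm_smul, Real.norm_eq_abs, abs_of_nonneg ht.1]
      exact mul_le_of_le_one_left (norm_nonneg _) ht.2
    constructor
    · have h1 : HasDerivAt (fun t : ℝ => α (t • z)) (fderiv ℝ α (t • z) z) t := by
        have := (hd _ htz).comp_hasDerivAt t ((hasDerivAt_id t).smul_const z)
        rw [one_smul] at this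
        exact this
      have h2 : HasDerivAt (fun t : ℝ => α (t • z) h) (fderiv ℝ α (t • z) z h) t := by
        simpa using h1.clm_apply (hasDerivAt_const t h)
      have h3 := (((hasDerivAt_id t).smul h2).const_add 1).hasDerivWithinAt (s := Icc 0 1)
      rw [one_smul] at h3
      exact ((hY _ hzh).2 t ht).sub (((hY z hz).2 t ht).mul h3)
    · set a := α (t • z) with ha
      set a' := α (t • (z + h)) with ha'
      set B := fderiv ℝ α (t • z) with hB
      have hmem : t • (z + h) ∈ closedBall (t • z) (min δ δ') := by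
        rw [mem_closedBall_iff_norm, smul_add, add_sub_cancel_left]
        exact le_min (hth.trans hh1) (hth.trans hh2)
      have hsub : closedBall (t • z) (min δ δ') ⊆ closedBall (t • z) δ :=
        closedBall_subset_closedBall (min_le_left _ _)
      have hr : ‖a' - a - B (t • h)‖ ≤ η * ‖h‖ := by
        have := (convex_closedBall (t • z) (min δ δ')).norm_image_sub_le_of_norm_hasFDerivWithin_le'
          (f := α) (f' := fderiv ℝ α) (φ := B) (C := η)
          (fun x hx => (hd x (hδD (hball t ht (hsub hx)))).hasFDerivWithinAt)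
          (fun x hx => by
            rw [← dist_eq_norm]
            exact hu x (hball t ht (hsub hx)) _ (hball t ht (mem_closedBall_self hδ.le))
              ((mem_closedBall.1 hx).trans (min_le_right _ _)))
          (mem_closedBall_self (by positivity)) hmem
        rw [smul_add, add_sub_cancel_left, ← smul_add] at this
        exact this.trans (by gcongr)
      have hab : ‖a‖ ≤ M := (hM1 _ (hball t ht (mem_closedBall_self hδ.le))).trans hM1'
      have hab' : ‖a'‖ ≤ M := (hM1 _ (hball t ht (hsub hmem))).trans hM1'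
      have hBb : ‖B‖ ≤ M := (hM2 _ (hball t ht (mem_closedBall_self hδ.le))).trans hM2'
      set r := a' - a - B (t • h) with hrd
      have hcv := curv (hf _ htz) h z
      rw [← ha, ← hB] at hcv
      have e : Y (z + h) t * a' (z + h) - (Y z t * a z * (1 + t • a h) + Y z t * (t • B z h + a h)) =
          (Y (z + h) t - Y z t * (1 + t • a h)) * a' (z + h) + Y z t * (B (t • h) h + r (z + h) +
            (t • a h) * (a' h + (r + B (t • h)) z) + t • (B h z - B z h + a h * a z - a z * a h)) := by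
        simp only [hrd, map_add, map_smul, add_apply,
          sub_apply, smul_apply, mul_add, add_mul, mul_sub,
          sub_mul, smul_add, smul_sub, mul_smul_comm, smul_mul_assoc, mul_one, mul_assoc]
        module
      rw [e, hcv, smul_zero, add_zero]
      have hzh' : ‖z + h‖ ≤ Z := by linarith [norm_add_le z h]
      have hzZ : ‖z‖ ≤ Z := by linarith
      have hBt : ‖B (t • h)‖ ≤ M * ‖h‖ := (B.le_opNorm _).trans (by gcongr)
      have n1 : ‖B (t • h) h‖ ≤ M * ‖h‖ * η := ((B (t • h)).le_opNorm _).trans (by gcongr)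
      have n2 : ‖r (z + h)‖ ≤ η * ‖h‖ * Z := (r.le_opNorm _).trans (by gcongr)
      have n3 : ‖t • a h‖ ≤ M * η := by
        rw [← map_smul]; exact (a.le_opNorm _).trans (by gcongr; exact hth.trans hh3)
      have n4 : ‖a' h + (r + B (t • h)) z‖ ≤ 3 * M * Z * ‖h‖ := by
        have m1 : ‖a' h‖ ≤ M * ‖h‖ := (a'.le_opNorm _).trans (by gcongr)
        have m2 : ‖r + B (t • h)‖ ≤ 2 * M * ‖h‖ := by
          nlinarith [norm_add_le r (B (t • h)), norm_nonneg h]
        have m3 : ‖(r + B (t • h)) z‖ ≤ 2 * M * ‖h‖ * Z := (ContinuousLinearMap.le_opNorm _ _).trans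
          (by gcongr)
        have m4 : M * ‖h‖ * 1 ≤ M * ‖h‖ * Z := by gcongr
        linarith [norm_add_le (a' h) ((r + B (t • h)) z)]
      have n5 := (norm_mul_le _ _).trans (mul_le_mul n3 n4 (norm_nonneg _) (by positivity))
      refine (norm_add_le _ _).trans (add_le_add ((norm_mul_le _ _).trans ?_)
        ((norm_mul_le _ _).trans ?_))
      · rw [mul_comm]
        exact mul_le_mul_of_nonneg_right ((a'.le_opNorm _).trans (by gcongr)) (norm_nonneg _)
      · refine mul_le_mul ((hYb t ht).trans_eq (by ring)) ?_ (norm_nonneg _) hE0.le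
        refine (norm_add_le _ _).trans ((add_le_add ((norm_add_le _ _).trans (add_le_add n1 n2))
          n5).trans_eq (by ring))
  have hfd : ∀ z ∈ D, fderiv ℝ (fun z => Y z 1) z =
      (ContinuousLinearMap.mul ℝ A (Y z 1)).comp (α z) := fun z hz => (key z hz).fderiv
  refine ⟨fun z => Y z 1, contDiffOn_infty.2 fun n => ?_, ?_, fun z hz v => by simp [hfd z hz]⟩
  · induction n with
    | zero => exact contDiffOn_zero.2 fun z hz => (key z hz).continuousAt.continuousWithinAt
    | succ n ih =>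
      rw [Nat.cast_succ, contDiffOn_succ_iff_fderiv_of_isOpen hD]
      refine ⟨fun z hz => (key z hz).differentiableAt.differentiableWithinAt, by simp, ?_⟩
      exact (((ContinuousLinearMap.mul ℝ A).contDiff.comp_contDiffOn ih).clm_comp
        (hα.of_le (by exact_mod_cast le_top))).congr hfd
  · have := constant_of_has_deriv_right_zero (f := Y 0) (a := 0) (b := 1)
      (fun t ht => ((hY 0 h0).2 t ht).continuousWithinAt)
      (fun t ht => by simpa using right_of_Icc ht ((hY 0 h0).2 t (Ico_subset_Icc_self ht))) 1 (by simp)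
    exact this.trans (hY 0 h0).1

theorem flat : H77.FlatStmt := fun _ _ hD h0 hs hα hf => flat_aux hD h0 hs hα hf

end Pool.Agent.MP_6b3e96_gt.H83
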